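import Pool.Agent.H571.FR.Large
import Pool.Graph.R_pool_sql_team_seeded_64922ed1.X55.FSq.Main

/-! MP_22f37c_nt, Q2: only finitely many coprime pairs outside the four families have no square of
a prime below the Frobenius number which is representable. -/

set_option autoImplicit false

namespace Pool.Agent.Results.MP_22f37c_nt.FinitelyManyBadPairs

/-- `π₂` of the pair `(a, b)`: the number of primes `p` with `p² ≤ a b - a - b` such that
`p² = a x + b y` for some natural numbers `x, y` -/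
noncomputable def pi2 (a b : ℕ) : ℕ :=
  {p : ℕ | p.Prime ∧ (p : ℤ) ^ 2 ≤ (a : ℤ) * b - a - b ∧ ∃ x y : ℕ, p ^ 2 = a * x + b * y}.ncard

/-- the set `ℰ` of the pairs `(6, 6m+5)`, `(8, 8m+7)`, `(12, 12m+11)`, `(24, 24m+23)`, `m ≥ 0` -/
def Exceptional : Set (ℕ × ℕ) :=
  {ab | ∃ m : ℕ, ab = (6, 6 * m + 5) ∨ ab = (8, 8 * m + 7) ∨ ab = (12, 12 * m + 11) ∨
    ab = (24, 24 * m + 23)}

theorem pi2_ne {a b p : ℕ} (hp : p.Prime) (h1 : p ^ 2 + a + b ≤ a * b)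
    (h2 : ∃ x y : ℕ, p ^ 2 = a * x + b * y) : pi2 a b ≠ 0 := by
  have hfin : ({p : ℕ | p.Prime ∧ (p : ℤ) ^ 2 ≤ (a : ℤ) * b - a - b ∧
      ∃ x y : ℕ, p ^ 2 = a * x + b * y} : Set ℕ).Finite := by
    apply (Set.finite_le_nat (a * b)).subset
    rintro q ⟨_, hq, _⟩
    have h3 : (q : ℤ) ^ 2 ≤ a * b := by
      have : (0 : ℤ) ≤ a := Int.natCast_nonneg a
      have : (0 : ℤ) ≤ b := Int.natCast_nonneg b
      linarith
    have h4 : q ^ 2 ≤ a * b := by exact_mod_cast h3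
    have h5 : q ≤ q ^ 2 := Nat.le_self_pow (by norm_num) q
    exact h5.trans h4
  unfold pi2
  rw [Ne, Set.ncard_eq_zero hfin]
  intro h
  have h3 : p ∈ ({p : ℕ | p.Prime ∧ (p : ℤ) ^ 2 ≤ (a : ℤ) * b - a - b ∧
      ∃ x y : ℕ, p ^ 2 = a * x + b * y} : Set ℕ) := by
    refine ⟨hp, ?_, h2⟩
    have : (p : ℤ) ^ 2 + a + b ≤ a * b := by exact_mod_cast h1
    linarith
  rw [h] at h3
  exact h3

/-- Only finitely many coprime pairs `1 < a₁ < a₂` outside `ℰ` satisfy `π₂ = 0`. -/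
theorem result :
    {ab : ℕ × ℕ | 1 < ab.1 ∧ ab.1 < ab.2 ∧ Nat.Coprime ab.1 ab.2 ∧ ab ∉ Exceptional ∧
      pi2 ab.1 ab.2 = 0}.Finite := by
  obtain ⟨A, hA⟩ := Pool.Agent.H571.FR.large
  -- a fixed smaller generator
  have h1 : ∀ a : ℕ, ∃ B : ℕ, ∀ b : ℕ, 1 < a → a < b → Nat.Coprime a b → (a, b) ∉ Exceptional →
      pi2 a b = 0 → b < B := by
    intro a
    by_cases ha : 3 ≤ a
    · obtain ⟨B, hB⟩ := Pool.Agent.X55.FSq.fixed ha
      refine ⟨B, fun b _ _ h3 h4 h5 => ?_⟩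
      by_contra hb
      rw [not_lt] at hb
      rcases hB b hb h3 with ⟨p, hp, hp1, hp2⟩ | h
      · exact pi2_ne hp hp1 hp2 h5
      · apply h4
        rcases h with h | h | h | h
        · exact ⟨b / 6, Or.inl (Prod.ext h.1 (by simp only; omega))⟩
        · exact ⟨b / 8, Or.inr (Or.inl (Prod.ext h.1 (by simp only; omega)))⟩
        · exact ⟨b / 12, Or.inr (Or.inr (Or.inl (Prod.ext h.1 (by simp only; omega))))⟩
        · exact ⟨b / 24, Or.inr (Or.inr (Or.inr (Prod.ext h.1 (by simp only; omega))))⟩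
    · refine ⟨7, fun b h1 h2 h3 _ h5 => ?_⟩
      have ha2 : a = 2 := by omega
      subst ha2
      by_contra hb
      rw [not_lt] at hb
      exact pi2_ne (p := 2) (by norm_num) (by omega) ⟨2, 0, by norm_num⟩ h5
  choose B hB using h1
  have h2 : {ab : ℕ × ℕ | 1 < ab.1 ∧ ab.1 < ab.2 ∧ Nat.Coprime ab.1 ab.2 ∧ ab ∉ Exceptional ∧
      pi2 ab.1 ab.2 = 0} ⊆ ⋃ a ∈ Set.Iio A, (fun b => (a, b)) '' {b : ℕ | b < B a} := by
    rintro ⟨a, b⟩ ⟨h3, h4, h5, h6, h7⟩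
    have h8 : a < A := by
      by_contra h
      obtain ⟨p, hp, hp1, hp2⟩ := hA a b (not_lt.mp h) h4 h5
      exact pi2_ne hp hp1 hp2 h7
    simp only [Set.mem_iUnion]
    exact ⟨a, h8, b, hB a b h3 h4 h5 h6 h7, rfl⟩
  exact ((Set.finite_Iio A).biUnion fun a _ => (Set.finite_lt_nat _).image _).subset h2

end Pool.Agent.Results.MP_22f37c_nt.FinitelyManyBadPairs
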